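import Pool.Agent.Work.MP_7b0bad_ag.HFinB

set_option autoImplicit false

namespace Pool.Agent.Results.MP_7b0bad_ag.CompositionFactors

/-- For every automorphism `φ ≠ 1` of `L` with `φ ^ p = 1` the group `L` is generated by the
elements fixed by `φ` and the `φ`-invariant subgroups of order prime to `p`. -/
def InvariantGeneration (p : ℕ) (L : Type) [Group L] : Prop :=
  ∀ φ : L ≃* L, (∀ x, φ^[p] x = x) → (∃ x, φ x ≠ x) →
    Subgroup.closure {x : L | φ x = x ∨ ∃ A : Subgroup L, ¬ p ∣ Nat.card A ∧
      (∀ a ∈ A, φ a ∈ A) ∧ x ∈ A} = ⊤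

/-- The nonabelian simple groups covered by the theorem: groups with `InvariantGeneration`,
alternating groups if `p ≤ 3`, the groups `PSL_2(F)` with `p ∣ |F| - 1` if `p` is odd, and, if
`p = 2`, the groups in which no element of order 4 is inverted by an automorphism of order at most
2 (for example the groups without elements of order 4). -/
def Covered (p : ℕ) (L : Type) [Group L] : Prop :=
  InvariantGeneration p L ∨
  (p ≤ 3 ∧ ∃ n : ℕ, 5 ≤ n ∧ Nonempty (L ≃* alternatingGroup (Fin n))) ∨
  (p ≠ 2 ∧ ∃ (F : Type) (_ : Field F) (_ : Finite F), p ∣ Nat.card F - 1 ∧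
    Nonempty (L ≃* Matrix.ProjectiveSpecialLinearGroup (Fin 2) F)) ∨
  (p = 2 ∧ ∀ φ : L ≃* L, (∀ x, φ (φ x) = x) → ∀ x : L, orderOf x = 4 → φ x ≠ x⁻¹)

/-- The purely wild part of Abhyankar's inertia conjecture for all finite groups whose nonabelian
composition factors of order divisible by `p` are covered. The existence statement is that of the
frozen statement `S00269`. -/
theorem result :
    ∀ (p : ℕ) (k : Type) [Field k] [IsAlgClosed k] [CharP k p], p.Prime →
    ∀ (G : Type) [Group G] [Finite G] (P : Subgroup G), IsPGroup p P →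
      Subgroup.normalClosure (P : Set G) = ⊤ →
      (∀ (K : Subgroup G) [K.Normal] (N L : Subgroup (G ⧸ K)), N.Normal → L ≤ N →
        (L.subgroupOf N).Normal → IsSimpleGroup L → p ∣ Nat.card L →
        (∃ a b : L, a * b ≠ b * a) → Covered p L) →
      ∃ (L : Type) (_ : Field L) (_ : Algebra (RatFunc k) L),
        FiniteDimensional (RatFunc k) L ∧ IsGalois (RatFunc k) L ∧
        ∃ φ : G ≃* (L ≃ₐ[RatFunc k] L),
          (∀ A : ValuationSubring L,
            (∀ c : k, algebraMap (RatFunc k) L (algebraMap k (RatFunc k) c) ∈ A) →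
            algebraMap (RatFunc k) L RatFunc.X ∈ A →
            ValuationSubring.inertiaSubgroup (RatFunc k) A = ⊥) ∧
          ∃ A : ValuationSubring L,
            (∀ c : k, algebraMap (RatFunc k) L (algebraMap k (RatFunc k) c) ∈ A) ∧
            algebraMap (RatFunc k) L RatFunc.X ∉ A ∧
            (ValuationSubring.inertiaSubgroup (RatFunc k) A).map
                (ValuationSubring.decompositionSubgroup (RatFunc k) A).subtype
              = P.map φ.toMonoidHom := by
  intro p k _ _ _ hp G _ _ P hP hn h
  have : Fact p.Prime := ⟨hp⟩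
  exact MP7b0bad.all_HCritK k p G P hP
    (MP7b0bad.HFinB MP7b0bad.all_HSixM p G P hP hn h)

end Pool.Agent.Results.MP_7b0bad_ag.CompositionFactors
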