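import Pool.Agent.Work.MP_7b0bad_ag.AllH
import Pool.Agent.Work.MP_7b0bad_ag.HFinA

set_option autoImplicit false

namespace Pool.Agent.Results.MP_7b0bad_ag.Generation

/-- A finite group is `p`-solvable if every nontrivial quotient has a nontrivial normal subgroup
whose order is a power of `p` or prime to `p`. -/
def PSolvable (p : ℕ) (G : Type) [Group G] : Prop :=
  ∀ N : Subgroup G, N.Normal → N ≠ ⊤ → ∃ M : Subgroup G, M.Normal ∧ N < M ∧
    ((∃ n : ℕ, N.relIndex M = p ^ n) ∨ ¬ p ∣ N.relIndex M)

/-- The purely wild part of Abhyankar's inertia conjecture for `(G, P)`, if `G` is generated by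
the normaliser of `P`, the subgroups of order prime to `p` normalised by `P`, and the `p`-solvable
subgroups `Y` that are generated by the `Y`-conjugates of a subgroup of `P` (for `G` itself
`p`-solvable take `Y = G`). The existence statement is that of the frozen statement `S00269`. -/
theorem result :
    ∀ (p : ℕ) (k : Type) [Field k] [IsAlgClosed k] [CharP k p], p.Prime →
    ∀ (G : Type) [Group G] [Finite G] (P : Subgroup G), IsPGroup p P →
      Subgroup.normalClosure (P : Set G) = ⊤ →
      sSup {Y : Subgroup G | Y ≤ Subgroup.normalizer (P : Set G) ∨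
        (¬ p ∣ Nat.card Y ∧ P ≤ Subgroup.normalizer (Y : Set G)) ∨
        (PSolvable p Y ∧ ∃ Q : Subgroup G, Q ≤ P ∧ Q ≤ Y ∧
          Subgroup.closure {g | ∃ x ∈ Y, ∃ q ∈ Q, g = x * q * x⁻¹} = Y)} = ⊤ →
      ∃ (L : Type) (_ : Field L) (_ : Algebra (RatFunc k) L),
        FiniteDimensional (RatFunc k) L ∧ IsGalois (RatFunc k) L ∧
        ∃ φ : G ≃* (L ≃ₐ[RatFunc k] L),
          (∀ A : ValuationSubring L,
            (∀ c : k, algebraMap (RatFunc k) L (algebraMap k (RatFunc k) c) ∈ A) →
            algebraMap (RatFunc k) L RatFunc.X ∈ A →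
            ValuationSubring.inertiaSubgroup (RatFunc k) A = ⊥) ∧
          ∃ A : ValuationSubring L,
            (∀ c : k, algebraMap (RatFunc k) L (algebraMap k (RatFunc k) c) ∈ A) ∧
            algebraMap (RatFunc k) L RatFunc.X ∉ A ∧
            (ValuationSubring.inertiaSubgroup (RatFunc k) A).map
                (ValuationSubring.decompositionSubgroup (RatFunc k) A).subtype
              = P.map φ.toMonoidHom := by
  intro p k _ _ _ hp G _ _ P hP hn h
  have : Fact p.Prime := ⟨hp⟩
  exact MP7b0bad.all_HCritK k p G P hP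
    (MP7b0bad.HFinA MP7b0bad.all_HNor MP7b0bad.all_GCop p G P hP hn h)

end Pool.Agent.Results.MP_7b0bad_ag.Generation
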