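import Pool.Agent.Work.MP_7b0bad_ag.LF.Fin

set_option autoImplicit false

namespace Pool.Agent.Results.MP_7b0bad_ag.PurelyWildChar2

/-- The purely wild part of Abhyankar's inertia conjecture in characteristic 2: for every finite
group `G` and every 2-subgroup `P` whose conjugates generate `G` the group `P` is an inertia group
over infinity of a `G`-Galois cover of the line unramified outside infinity. The existence
statement is that of the frozen statement `S00269`. -/
theorem result :
    ∀ (k : Type) [Field k] [IsAlgClosed k] [CharP k 2],
    ∀ (G : Type) [Group G] [Finite G] (P : Subgroup G), IsPGroup 2 P →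
      Subgroup.normalClosure (P : Set G) = ⊤ →
      ∃ (L : Type) (_ : Field L) (_ : Algebra (RatFunc k) L),
        FiniteDimensional (RatFunc k) L ∧ IsGalois (RatFunc k) L ∧
        ∃ φ : G ≃* (L ≃ₐ[RatFunc k] L),
          (∀ A : ValuationSubring L,
            (∀ c : k, algebraMap (RatFunc k) L (algebraMap k (RatFunc k) c) ∈ A) →
            algebraMap (RatFunc k) L RatFunc.X ∈ A →
            ValuationSubring.inertiaSubgroup (RatFunc k) A = ⊥) ∧
          ∃ A : ValuationSubring L,
            (∀ c : k, algebraMap (RatFunc k) L (algebraMap k (RatFunc k) c) ∈ A) ∧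
            algebraMap (RatFunc k) L RatFunc.X ∉ A ∧
            (ValuationSubring.inertiaSubgroup (RatFunc k) A).map
                (ValuationSubring.decompositionSubgroup (RatFunc k) A).subtype
              = P.map φ.toMonoidHom := by
  intro k _ _ _ G _ _ P hP hn
  have : Fact (Nat.Prime 2) := ⟨Nat.prime_two⟩
  exact MP7b0bad.all_HCritK k 2 G P hP (MP7b0bad.LF.all_fin2 G P hP hn)

end Pool.Agent.Results.MP_7b0bad_ag.PurelyWildChar2
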