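import Pool.Agent.Work.MP_7b0bad_ag.SV.Fin
import Pool.Agent.Work.MP_7b0bad_ag.SV.VAll
import Pool.Agent.Work.MP_7b0bad_ag.SV.GAll
import Pool.Agent.Work.MP_7b0bad_ag.SV.LAll
import Pool.Agent.Work.MP_7b0bad_ag.LF.Fin
import Pool.Agent.Work.MP_7b0bad_ag.SnT.Main
import Pool.Agent.Work.MP_7b0bad_ag.SnT.SAtom
import Pool.Agent.Work.MP_7b0bad_ag.SnT.SChar
import Pool.Agent.Work.MP_7b0bad_ag.SnT.SCharE
import Pool.Agent.Work.MP_7b0bad_ag.SnT.SComb
import Pool.Agent.Work.MP_7b0bad_ag.SnT.SCount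
import Pool.Agent.Work.MP_7b0bad_ag.SnT.SCyc
import Pool.Agent.Work.MP_7b0bad_ag.SnT.SEx
import Pool.Agent.Work.MP_7b0bad_ag.SnT.SGal
import Pool.Agent.Work.MP_7b0bad_ag.SnT.SIner
import Pool.Agent.Work.MP_7b0bad_ag.SnT.SIrr
import Pool.Agent.Work.MP_7b0bad_ag.SnT.SMob
import Pool.Agent.Work.MP_7b0bad_ag.SnT.SNoDec
import Pool.Agent.Work.MP_7b0bad_ag.SnT.SNoDecP
import Pool.Agent.Work.MP_7b0bad_ag.SnT.SOrb
import Pool.Agent.Work.MP_7b0bad_ag.SnT.SOrbC
import Pool.Agent.Work.MP_7b0bad_ag.SnT.SRed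
import Pool.Agent.Work.MP_7b0bad_ag.SnT.STCop
import Pool.Agent.Work.MP_7b0bad_ag.SnT.STDeg
import Pool.Agent.Work.MP_7b0bad_ag.SnT.STWr
import Pool.Agent.Work.MP_7b0bad_ag.SnT.STame
import Pool.Agent.Work.MP_7b0bad_ag.SnT.SUnr
import Pool.Agent.Work.MP_7b0bad_ag.SnT.SVal

set_option autoImplicit false

namespace Pool.Agent.Results.MP_7b0bad_ag.TameChar2

/-- the extension `L` of `k(x)` is unramified outside infinity -/
def Unr (k : Type) [Field k] (L : Type) [Field L] [Algebra (RatFunc k) L] : Prop :=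
  ∀ A : ValuationSubring L,
    (∀ c : k, algebraMap (RatFunc k) L (algebraMap k (RatFunc k) c) ∈ A) →
    algebraMap (RatFunc k) L RatFunc.X ∈ A →
    ValuationSubring.inertiaSubgroup (RatFunc k) A = ⊥

/-- `I` is an inertia group of `L` over infinity -/
def InertiaAt (k : Type) [Field k] (L : Type) [Field L] [Algebra (RatFunc k) L]
    (I : Subgroup (L ≃ₐ[RatFunc k] L)) : Prop :=
  ∃ A : ValuationSubring L,
    (∀ c : k, algebraMap (RatFunc k) L (algebraMap k (RatFunc k) c) ∈ A) ∧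
    algebraMap (RatFunc k) L RatFunc.X ∉ A ∧
    (ValuationSubring.inertiaSubgroup (RatFunc k) A).map
        (ValuationSubring.decompositionSubgroup (RatFunc k) A).subtype = I

/-- `G₀` is an inertia group over infinity of a `G`-Galois cover of the line over `k` unramified
outside infinity (the existence statement of the frozen statement `S00269`). -/
def Occ (k : Type) [Field k] (G : Type) [Group G] (G₀ : Subgroup G) : Prop :=
  ∃ (L : Type) (_ : Field L) (_ : Algebra (RatFunc k) L),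
    FiniteDimensional (RatFunc k) L ∧ IsGalois (RatFunc k) L ∧
    ∃ φ : G ≃* (L ≃ₐ[RatFunc k] L), Unr k L ∧ InertiaAt k L (G₀.map φ.toMonoidHom)

/-- The hypotheses of the problem on `G₁ ≤ G₀ ≤ G` and the condition of the conjecture:
`G₁` is a `p`-group, normal in `G₀`, with `G₀ / G₁` cyclic of order prime to `p`, and the conjugates
of `G₁` generate `G`. -/
def Hyp (p : ℕ) {G : Type} [Group G] (G₁ G₀ : Subgroup G) : Prop :=
  G₁ ≤ G₀ ∧ (G₁.subgroupOf G₀).Normal ∧ IsPGroup p G₁ ∧ Nat.Coprime (G₁.subgroupOf G₀).index p ∧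
    (∃ g : G, G₁ ⊔ Subgroup.zpowers g = G₀) ∧ Subgroup.normalClosure (G₁ : Set G) = ⊤

/-- no prime `r ≠ p` that divides the order of `N / [N, G]` divides the order of `G₀ / G₁` -/
def Cop (p : ℕ) {G : Type} [Group G] (N G₁ G₀ : Subgroup G) : Prop :=
  ∀ r : ℕ, r.Prime → r ≠ p → r ∣ ⁅N, (⊤ : Subgroup G)⁆.relIndex N →
    ¬ r ∣ (G₁.subgroupOf G₀).index

/-- Characteristic 2, `N` a solvable normal subgroup with `Cop`. If `G₀ ≤ G₁ N`, or if `G / N` is a
symmetric group in which the image of `G₁` is generated by a transposition, then `G₀` is an inertia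
group over infinity of a `G`-Galois cover of the line unramified outside infinity. -/
theorem result :
    ∀ (k : Type) [Field k] [IsAlgClosed k] [CharP k 2],
    ∀ (G : Type) [Group G] [Finite G] (G₀ G₁ N : Subgroup G) [N.Normal], Hyp 2 G₁ G₀ →
      Group.IsSolvable N → Cop 2 N G₁ G₀ →
      (G₀ ≤ G₁ ⊔ N ∨
        ∃ (n : ℕ) (q : G →* Equiv.Perm (Fin n)), Function.Surjective q ∧ q.ker = N ∧
          ∃ a b : Fin n, a ≠ b ∧ G₁.map q = Subgroup.zpowers (Equiv.swap a b)) →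
      Occ k G G₀ := by
  intro k _ _ _ G _ _ G₀ G₁ N _ h hs hc hN
  have : Fact (Nat.Prime 2) := ⟨Nat.prime_two⟩
  have hAx := MP7b0bad.GT.all_GAx 2 _ (MP7b0bad.SV.all_VRAx k 2)
  refine MP7b0bad.SVF.occ_main k 2 MP7b0bad.all_T0 hAx MP7b0bad.GT.all_GMain MP7b0bad.GT.all_GHyp
      G G₀ G₁ N h hs hc ?_
  rcases hN with hN | ⟨n, q, hq, rfl, hsw⟩
  · have hm := MP7b0bad.SVF.hyp_map (QuotientGroup.mk' N) (QuotientGroup.mk'_surjective N) h
    have he : G₀.map (QuotientGroup.mk' N) = G₁.map (QuotientGroup.mk' N) := by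
      refine le_antisymm ?_ (Subgroup.map_mono h.1)
      have := Subgroup.map_mono (f := QuotientGroup.mk' N) hN
      rwa [Subgroup.map_sup, QuotientGroup.map_mk'_self, sup_bot_eq] at this
    obtain ⟨-, -, h3, -, -, h6⟩ := hm
    rw [he]
    exact MP7b0bad.all_HCritK k 2 (G ⧸ N) _ h3 (MP7b0bad.LF.all_fin2 (G ⧸ N) _ h3 h6)
  · obtain ⟨h1, h2, -, h4, h5, -⟩ := MP7b0bad.SVF.hyp_map q hq h
    have hNoDec := MP7b0bad.SnT.prf_SNoDec MP7b0bad.SnT.prf_SMob
      (MP7b0bad.SnT.prf_SNoDecP MP7b0bad.SnT.prf_STDeg MP7b0bad.SnT.prf_STCop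
        MP7b0bad.SnT.prf_STWr) MP7b0bad.SnT.prf_STDeg
    have hAtom := MP7b0bad.SnT.prf_SAtom hNoDec MP7b0bad.SnT.prf_SIrr
    have hOrb := MP7b0bad.SnT.prf_SOrb MP7b0bad.SnT.prf_SCount MP7b0bad.SnT.prf_SVal
    have hChar := MP7b0bad.SnT.prf_SChar MP7b0bad.SnT.prf_SVal MP7b0bad.SnT.prf_STame
      MP7b0bad.SnT.prf_SCharE
    have hCyc := MP7b0bad.SnT.prf_SCyc MP7b0bad.SnT.prf_SCount hOrb hChar
    have hSn : Occ k (Equiv.Perm (Fin n)) (G₀.map q) :=
      MP7b0bad.SnT.prf_SMain MP7b0bad.SnT.prf_SEx MP7b0bad.SnT.prf_SIrr hAtom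
        MP7b0bad.SnT.prf_SGal MP7b0bad.SnT.prf_SUnr MP7b0bad.SnT.prf_SCount hCyc
        MP7b0bad.SnT.prf_SIner MP7b0bad.SnT.prf_SComb MP7b0bad.SnT.prf_SOrbC
        MP7b0bad.SnT.prf_SRed k n (G₀.map q) (G₁.map q) h1 h2 hsw h4 h5
    have hO := MP7b0bad.SVF.occ_quo k 2 MP7b0bad.all_T0 hAx (Equiv.Perm (Fin n)) (G ⧸ q.ker)
      (QuotientGroup.quotientKerEquivOfSurjective q hq).symm.toMonoidHom (G₀.map q)
      (QuotientGroup.quotientKerEquivOfSurjective q hq).symm.surjective hSn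
    have hE : (G₀.map q).map (QuotientGroup.quotientKerEquivOfSurjective q hq).symm.toMonoidHom
        = G₀.map (QuotientGroup.mk' q.ker) := by
      rw [Subgroup.map_map]
      congr 1
      ext x
      show (QuotientGroup.quotientKerEquivOfSurjective q hq).symm (q x) = _
      rw [MulEquiv.symm_apply_eq]
      rfl
    rw [hE] at hO
    exact hO

end Pool.Agent.Results.MP_7b0bad_ag.TameChar2
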